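import Pool.Agent.H246KN.GEN

/-!
# A pattern theorem inside a fixed knot type
-/

set_option autoImplicit false

namespace Pool.Agent.Results.MP_aea6d5_co.PatternTheorem

open Filter Topology KN

/-- Pattern theorem.  For every class `Q` of knot types (in particular for a single knot type) the
number of closed words of class `Q` with at most `n / 10 ^ 7` bumps or at most `n / 10 ^ 7` free
plaquettes is exponentially smaller than `gr Q ^ n`. -/
theorem result (Q : List Dir → Prop) (hQ : KClass Q) (hne : ∃ w, SAP w ∧ Q w) :
    ∃ θ C : ℝ, 0 < θ ∧ θ < 1 ∧ ∀ n : ℕ,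
      (((K Q n).filter (fun w => 10 ^ 7 * fr w ≤ n ∨ 10 ^ 7 * bu w ≤ n)).card : ℝ) ≤
        C * (θ * gr Q) ^ n := by
  have h := class_pattern Q hQ hne
  unfold bad at h
  convert h

end Pool.Agent.Results.MP_aea6d5_co.PatternTheorem
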