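import Pool.Agent.H246KN.GEN

/-!
# The ratio limit theorem for lattice polygons of fixed knot type
-/

set_option autoImplicit false

namespace Pool.Agent.Results.MP_aea6d5_co.RatioLimit

open Filter Topology KN

/-- Ratio limit theorem.  For every class `Q` of knot types (in particular for a single knot type)
the ratios of consecutive counts are close to `gr Q ^ 2` at all lengths at which the count is close
to its growth rate; if `Q` is closed under connected sums the ratios converge.  In particular they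
converge for the unknot. -/
theorem result :
    (∀ Q : List Dir → Prop, KClass Q → (∃ w, SAP w ∧ Q w) →
      1 < gr Q ∧ gr Q ≤ 5 ∧
      (∀ ε : ℝ, 0 < ε → ∃ δ : ℝ, 0 < δ ∧ δ < 1 ∧ ∀ᶠ j : ℕ in atTop,
        ((1 - δ) * gr Q) ^ (2 * j) ≤ pq Q (2 * j) →
        |pq Q (2 * j + 2) / pq Q (2 * j) - gr Q ^ 2| ≤ ε) ∧
      (CSum Q → Tendsto (fun j : ℕ => pq Q (2 * j + 2) / pq Q (2 * j)) atTop (𝓝 (gr Q ^ 2)))) ∧
    (∀ k : List V, KClass (KT k)) ∧
    Tendsto (fun j : ℕ => pq U (2 * j + 2) / pq U (2 * j)) atTop (𝓝 (gr U ^ 2)) := by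
  have hU : KClass U := GEN.kt_class sq
  have hne : ∃ w, SAP w ∧ U w := ⟨sqw, c_sq.2.1, Or.inl (Same.refl _)⟩
  refine ⟨fun Q hQ hne => ?_, GEN.kt_class, ?_⟩
  · obtain ⟨h1, h2, h3⟩ := gr_bounds Q hQ hne
    exact ⟨by linarith, h3, class_ratio Q hQ hne, fun hc => (class_sum Q hQ hne hc).2⟩
  · exact (class_sum U hU hne GEN.u_csum).2

end Pool.Agent.Results.MP_aea6d5_co.RatioLimit
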