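import Pool.Agent.H246K3.All3

/-!
# A connected sum of `N` knots has at least `c * n ^ (2 N / 3)` times as many polygons of length `n`
as the unknot
-/

set_option autoImplicit false

namespace Pool.Agent.Results.MP_aea6d5_co.SummandExponent

open Filter Topology KN

/-- Let `K` be a connected sum of `N` knots whose knot groups are not commutative (that is, which
are not trivial). Then the number of polygons of length `n` of type `K` is at least
`c * n ^ (2 N / 3)` times the number of unknotted ones, for all large even `n`. Knots with a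
non-commutative group exist on the lattice (trefoil), and all the connected sums exist. -/
theorem result : (∃ w, SAP w ∧ NCG (vl w)) ∧
    ∀ (ks : ℕ → List V) (N : ℕ), (∀ i < N, NCG (ks i)) →
      (∀ i < N, ∃ w, SAP w ∧ Same (vl w) (ks i)) →
      (∃ w, SAP w ∧ Sums ks N (vl w)) ∧
      ∀ l : List V, Sums ks N l → ∃ c : ℝ, 0 < c ∧ ∀ᶠ j : ℕ in atTop,
        c * (2 * j : ℝ) ^ (2 * N / 3 : ℝ) * pq U (2 * j) ≤ pq (KT l) (2 * j) := by
  refine ⟨⟨.zm :: v0, ⟨by decide, by decide +kernel, by decide +kernel⟩, e_tre⟩, fun ks N hk hw => ⟨e_sume ks N hw, ?_⟩⟩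
  exact fun l hl => K3_main ks N hk hw l hl

end Pool.Agent.Results.MP_aea6d5_co.SummandExponent
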