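import Pool.Agent.H246KN.GEN

/-!
# At every length there are at least `c` times as many polygons of type `K` as unknotted ones
-/

set_option autoImplicit false

namespace Pool.Agent.Results.MP_aea6d5_co.UnknotMinorant

open Filter Topology KN

/-- For every class `Q` of knot types (in particular for a single knot type) the number of polygons
of class `Q` is at least `c` times the number of unknotted polygons of the same length. -/
theorem result (Q : List Dir → Prop) (hQ : KClass Q) (hne : ∃ w, SAP w ∧ Q w) :
    ∃ c : ℝ, 0 < c ∧ ∀ᶠ j : ℕ in atTop, c * pq U (2 * j) ≤ pq Q (2 * j) :=
  class_low Q hQ hne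

end Pool.Agent.Results.MP_aea6d5_co.UnknotMinorant
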